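import Pool.Agent.Helper56.TateUniv.Main

/-!
# The Tate conjecture and Artin representations

Let `F` be a number field with absolute Galois group `G`, fix a dimension `n`, a codimension `r`
and a variety `Y` over `F` of dimension `n`. If there is, on some variety of dimension `n` over some
finite extension of `F`, a Tate class of codimension `r` which is not algebraic, then **every**
finite-dimensional representation of `G × Δ` with open kernel, for every finite group `Δ`, is a
subrepresentation of the Tate classes in `H^{2r}(X)(r)` which meets the algebraic classes in zero,
for a variety `X` over `F` of dimension `n` with an action of `Δ` over `F` and a `Δ`-invariant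
generically finite morphism to `Y`. So the Tate conjecture (in dimension `n` and codimension `r`,
over all finite extensions of `F`) holds if one single such representation is omitted: for
instance, if on the varieties over `F` which dominate `Y` all Tate classes are algebraic on which
`G` acts by one given quadratic character; or all Galois-invariant classes on which an involution
acts as `-1`; or if `G` always acts on the Tate classes modulo algebraic classes through groups in
which one given finite group is not a quotient.

Proof: let `t` be a Tate class on `S` over `L` which is not algebraic. One reduces to `L = F` by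
restriction of scalars. Let `L'` be a finite Galois extension of `F` such that the Galois group of
`k` over `L'` fixes `t` and acts trivially on the given representation `E`, let `Γ` be the Galois
group of `L'` over `F`, and `V` a `Δ`-invariant complete intersection of dimension `n` in the product
of `Y` and the restriction of scalars of `S^{M × Δ}` from `L'` to `F`, where `M` is the dimension of
`E`. It has projections `p i m d : V ⟶ S` over `k`, and the classes `(p i m d)^* (i t)` are linearly
independent modulo algebraic classes for those `i` for which `i t` is not algebraic, since
`(p i m d)_* (p i' m' d')^*` maps Tate classes to algebraic classes, unless the indices are equal.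
If `λ_m` are coordinates on `E`, then `e ↦ ∑ λ_m ((i⁻¹, d) e) (p i m d)^* (i t)` is equivariant, and
`e` is determined by the terms with `i = 1`, `d = 1`.
-/

open CategoryTheory AlgebraicGeometry

universe u v w x y

namespace Pool.Agent.Results.MP_938ce2_ag.ArtinUniversality

open Pool.Agent.H914 Pool.Agent.H914.VarClass Pool.Agent.H914.VarClass.Obj Pool.Agent.W492.BB
  Pool.Agent.TH133 Pool.Agent.V1157.FD Pool.Agent.Helper56.TateUniv

theorem result {k : Type u} [Field k] {𝒱 : VarClass k} {C : TheoryData.{u, v, 0} 𝒱 ℚ}
    [IsChowProj C] {K : Type w} [Field K] {H : WeilTheoryData.{u, v, w} C K} [IsWeilProj H]
    {G : Type x} [Group G] [TopologicalSpace G] [IsTopologicalGroup G] [CompactSpace G]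
    [TotallyDisconnectedSpace G] (R : FormData.{u, v, w, x, y} G H) (hR : IsGalois R) (n r : ℕ)
    (hP : HasInvariantIntersections R n) (Y : R.Form) (hYG : R.grp Y = ⊤) (hY : (R.obj Y).dim = n) :
    TateConjecture R n r ↔
      ∃ (Δ : Type) (_ : Group Δ) (_ : Finite Δ) (E : Type w) (_ : AddCommGroup E) (_ : Module K E)
        (_ : Module.Finite K E) (ρ : Representation K (G × Δ) E),
        HasOpenKernel ρ ∧ ¬ OccursAbove R Y n r ρ := by
  constructor
  · intro h
    exact ⟨Unit, inferInstance, inferInstance, K, inferInstance, inferInstance, inferInstance,
      Representation.trivial K (G × Unit) K, ⟨⊤, isOpen_univ, fun _ _ => rfl⟩, not_occurs h Y⟩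
  · rintro ⟨Δ, _, _, E, _, _, _, ρ, hρ, hno⟩
    by_contra hne
    exact hno (occurs_of_not hR hP hYG hY hne ρ hρ)

end Pool.Agent.Results.MP_938ce2_ag.ArtinUniversality
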