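import Mathlib
import Pool.Graph.R_seed8.TH115.GD.Defs
import Pool.Agent.Helper55.RL.Asm4

/-!
# For 100% of the polynomials `D`: no new Tate classes in the twists by `D` of ANY p-adic local system of the
# projective line, for every prime `p`, over `k` and over all its extensions `k₂` with `k₂ ∩ M_D = k`

Let `k` be a number field, `k'` an algebraic closure, `K = k(t)`, `F = k'(t)` and `p` any prime. Let `P ≠ 0`
be any polynomial over `k` and `L / K` any finite extension. Let `D` run through the polynomials of degree
`≤ n`, `n ≥ 3`, whose coefficients are integers of `k` with coordinates between `-H` and `H`.

Theorem. There is a number `N` such that for all the `D`, with the exception of a proportion which tends to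
zero if `H` tends to infinity, there is a Galois extension `M = M_D` of `k`, whose degree divides `N`, with
the following property (`VanishExt`). Let `k₂` be any finite extension of `k` such that the elements of
`k₂ ∩ M_D` are constants in `L` (for example `k₂ = k`, or `k₂ ∩ M_D = k`, or any Galois extension whose degree
is prime to `N`), `K₂ = k₂(t)` and `L₂ = K₂ L`. Let `V = ℚ_p ^ d` be ANY continuous representation `ρ` of the
Galois group of `K₂`, of any dimension `d`, with the invariant lattice `ℤ_p ^ d`, such that

* the image modulo `p` of the Galois group of `L₂` is a `p`-group;
* `ρ` is not ramified outside of the roots of `P D` and infinity (over `k'`);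
* the inertia groups at the roots of `D` have no nonzero invariants in `V`.

Then there are no nonzero classes in `H¹(F, V)` which are fixed by the Galois group of `K₂` and locally
trivial at the roots of `D` and at the places of `F` which are not roots of `P D` or infinite
(`VanishL`; no local condition at the other places). The exceptional set of the `D` depends only on `p`,
`P`, `L` and `n`, not on `V`, on its dimension, or on `k₂`.

Relation to the Tate conjecture. Every representation `V₀` of `G_K` satisfies the first condition for a
suitable `L` (the field cut out by `V₀` modulo `p`), and if it comes from geometry it is not ramified outside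
of the roots of some `P` and infinity. The theorem can be applied to all the twists `V = V₀ ⊗ W`, where `W`
is the new part of the permutation representation of the covering `C_D : s^q = D(t)`, `q = p ^ m`: it is
totally ramified at the roots of `D` and the Galois group of `s^q = D` is a `p`-group, up to constants which
are put into `L`. Let `f : Y → ℙ¹` be a smooth projective variety over `k` with a map to the projective line
(for instance the pencil of a Lefschetz fibration of any variety), and `Y_D` a smooth model of the
pull-back `Y ×_{ℙ¹} C_D`. For `V₀ = H^{2j-1}(Y_t, ℚ_p(j))` the theorem says that the part
`H¹(ℙ¹, j_* (V₀ ⊗ W))` of `H^{2j}(Y_D, ℚ_p(j))` contains no nonzero Tate classes fixed by the Galois group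
of `k₂`: for 100% of the `D` the only such Tate classes of `Y_D` are those of `Y` and those which come
from the even cohomology of the fibres. As there is no local condition at the roots of `P` and infinity the
same is true for open varieties. For example:

* surfaces: for every fibred surface `Y → ℙ¹` (no condition on the fibres), every `q = p ^ m` and 100% of the
  `D` the Tate conjecture at `p` over `k₂` for `Y_D` follows from the one for `Y` (known for instance for
  rational, K3 and abelian surfaces and products of curves), and for the Jacobian `J` of the generic fibre
  `rank J(k₂(t, D^(1/q))) = rank J(k₂(t))`;
* for every abelian variety `A` over `k(t)` and 100% of the `D` the twist `A_D(k₂(t))` is finite;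
* since the exceptional set does not depend on `V`, the same `D` can be used for all
  `V₀^{⊗ a} ⊗ (V₀^*)^{⊗ b} (j)`, that is for all the powers `Y_t^m` of the fibres and all degrees at the same
  time, for all the abelian varieties of all dimensions which have good reduction outside of `P` and infinity
  and points of order `p` in `L` (or in a `p`-extension of `L`), and for all the covers `s^(p^m) = D(t)`,
  `m ≥ 1`; and, as `L` may contain any function field of a curve over the line, for the fibrations over all
  base curves.

For a single `V₀`, `k₂ = k` and large `n` such statements follow from the big monodromy theorems of Katz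
(Twisted L-functions and monodromy) and Hilbert's irreducibility theorem (Serre, Terasoma). This method
cannot be used for infinitely many `V₀` at the same time.

Proof. Let `π = D` and let `I` be the inertia group at a root `θ` of `π`, with decomposition group `D_θ` in
`Γ = G_K`. As `V^I = 0`, a fixed class extends to a cocycle `C : Γ → V` which vanishes on `D_θ` after a change
by a coboundary; it is continuous and bounded. `L` may be assumed to be Galois over `K` and to contain the
roots of unity of order `p`; let `k₁` be its field of constants and `N = G_L`. If `C ≠ 0` there are invariant
groups `p T ≤ T' < T`, with `C(Γ)` in `T` and not in `T'`, and `N`-invariant characters `φ` of order `p` of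
`T / T'`; `χ = φ ∘ C` is a character of order `p` of `N` which vanishes at all the elements of `D_θ ∩ N` and
their conjugates under `Γ` (`P_DLP`); so it is not ramified at the roots of `D` and outside of `P` and the
places at which `L` has bad reduction, a set which does not depend on `D`. Such a `χ` is given by a root of
order `p` of some `y ∈ L`, and the key point is a finiteness theorem: up to `p`-th powers of `F L` there are
finitely many `y` (`P_FIN`, the finiteness of the group of points of order `p` of the Jacobian of a curve,
with an elementary proof by generic families of functions, derivations and ultraproducts). So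
`y^(p-1) τ(y)` is a `p`-th power in a fixed extension `L2` of `L`, for the `τ` which fix `k₁` (`P_HFP`). By
Hilbert irreducibility (`S_IRR`) the decomposition group `D_θ` maps onto the Galois group of `L2` over `K`
for 100% of the `D`. If some `y^(p-1) τ(y)` is not a `p`-th power in `L` this gives an element of `D_θ ∩ N`
which does not fix its root, a contradiction; otherwise `χ` extends to a character of order `p` of
`G_{k₁(t)}` which vanishes at `D_θ ∩ G_{k₁(t)}` and is not ramified outside of `P`: a product `u S` of a
constant and a divisor of a power of `P` which is a `p`-th power modulo `D`, and for 100% of the `D` only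
`p`-th powers have this property (`P_K1P`). Let `M_D` be generated by `k₁`, the roots of `D` and `P`, the
residue fields of `L2` at the roots of `D` and the roots of order `p` of `θ - r`, `θ` and `r` roots of `D`
and `P`: all the conditions remain true over `k₂` if `k₂ ∩ M_D` is contained in `L` (`P_SP2`, `P_KPP`,
`S_CON`, `S_SU2`).

All the definitions used in the statement are in Pool/Agent/Helper55/RL/Def.lean and, for `Sep`, `Comp` and
`IsTower`, in Pool/Graph/R_seed8/TH115/GD/Defs.lean.
-/

namespace Pool.Agent.Results.MP_938ce2_ag.EveryFamilyAlmostAllTwists

open Polynomial NumberField Pool.Agent.TH115.GD Pool.Agent.Helper55.RL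

/-- For `100%` of the `D = ∑ x_j X ^ j` of degree at most `n`, `VanishExt p k' K F L P N D`: there is a Galois
extension `M` of `k`, of degree dividing `N`, such that for all `k₂` for which the elements of `k₂ ∩ M` are
constants in `L`, and all representations `V` of the Galois group of `k₂(t)` as above, the fixed classes in
`H¹(F, V)` vanish. -/
theorem result (p : ℕ) [Fact p.Prime] {k k' K F : Type} [Field k] [NumberField k] [Field k']
    [Algebra k k'] [Field K] [Algebra k[X] K] [Field F] [Algebra k'[X] F] [IsFractionRing k'[X] F]
    [Algebra K F] (hT : IsTower k k' K F) {J : Type} [Fintype J] (B : Module.Basis J ℤ (𝓞 k))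
    (L : IntermediateField K (Sep F)) [FiniteDimensional K L] {P : k[X]} (hP : P ≠ 0)
    {n : ℕ} (hn : 3 ≤ n) :
    ∃ N : ℕ, 0 < N ∧ ∀ η : ℝ, 0 < η → ∃ H0 : ℕ, ∀ H : ℕ, H0 ≤ H →
      (({x : Fin (n + 1) → 𝓞 k | (∀ j t, |B.repr (x j) t| ≤ (H : ℤ)) ∧
        ¬ VanishExt p k' K F L P N
          (∑ j : Fin (n + 1), C (algebraMap (𝓞 k) k (x j)) * X ^ (j : ℕ))}.ncard : ℕ) : ℝ) ≤
        η * (2 * H + 1) ^ (Fintype.card J * (n + 1)) :=
  vanish_all p hT B L hP hn

end Pool.Agent.Results.MP_938ce2_ag.EveryFamilyAlmostAllTwists
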