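import Mathlib
import Pool.Graph.R_seed8.TH115.GD.Defs
import Pool.Agent.Helper55.RT.Fin5

/-!
# Outside of a thin set of the polynomials `D` there are no new Tate classes, over any finite extension, in
# the cohomology of the twists by `D` of all p-adic local systems of the line of rank up to `exp(c deg D)`

Let `k` be a number field, or any field of characteristic zero, `k'` an algebraic closure, `K = k(t)`,
`F = k'(t)`, `p` any prime, `ℓ ≥ 3` any prime different from `p` (for example `ℓ = 3`, or `ℓ = 5` if `p = 3`),
`P ≠ 0` any polynomial over `k` and `k₀` any finite extension of `k` in `k'`.

Theorem. For all the monic polynomials `D` of degree `n` over `k`, with the exception of a thin set (in the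
sense of Serre), the following is true (`NoPotential`). Let `V = ℚ_p ^ d` be ANY continuous representation of
the Galois group of `K`, of any rank `d`, with the invariant lattice `ℤ_p ^ d`, such that

* the image modulo `p` of the Galois group of `k₀(t)` is a `p`-group;
* `V` is not ramified outside of the roots of `P D` and infinity (over `k'`);
* the inertia groups at the roots of `D` have no nonzero invariants in `V`.

Let `H` be the space of the classes in `H¹(F, V)` which are locally trivial at the roots of `D` and at the
places which are not roots of `P D` or infinite. Let `κ` be ANY finite extension of `k`, and `m` the minimum of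
`(n + deg P) d` and of the degree of `κ` over `k`. If `(2 p m²)^ℓ < p^(⌊n / ℓ⌋ - 1)`, then no nonzero class in
`H` is fixed by the Galois group of `κ(t)`.

The exceptional thin set depends only on `p`, `ℓ`, `P`, `k₀` and `n`, not on `V`, its rank or `κ`. With a constant
`c > 0` which depends only on `p`, for large `n` and fixed `P`:

* if `d < exp(c n)` then no nonzero class in `H` is fixed by ANY open subgroup of the Galois group of `k`: all
  the finite extensions `κ` of `k` of all degrees are allowed, with any action on the roots of `D`;
* for all `d`, no nonzero class in `H` is fixed over a finite extension `κ` of degree less than `exp(c n)`.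

The local Galois groups of `F` are procyclic, hence `V^I = 0` implies that all the classes are trivial at the
roots of `D`, and `H = H¹(U, V)` where `U` is the complement of the roots of `P D` and infinity in the
projective line over `k'`. As the Galois group is compact, all continuous representations have invariant
lattices.

Relation to the Tate conjecture. A Tate class is a class which is fixed by an open subgroup of the Galois
group. Let `V = V₀ ⊗ W`, where `V₀ = H^{2j-1}(Y_t, ℚ_p(j))` for any family `Y → ℙ¹` over `k` with good
reduction outside of the roots of `P` and infinity, such that the Galois group of `k₀(t)` acts on a lattice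
modulo `p` through a `p`-group, and `W` is the new part of the permutation representation of the covering
`C_D : s^q = D(t)`, `q = p ^ m'`; then the part `H¹(ℙ¹, j_* V)` of `H^{2j}(Y_D, ℚ_p(j))`, `Y_D` a smooth model of
the pull-back `Y ×_{ℙ¹} C_D`, and also the corresponding part of the cohomology of the open variety over `U`, is
contained in `H¹(U, V)`. There are no Tate classes in this part, over any finite extension of `k`, if
`d < exp(c n)`: the Tate conjecture is true for it, for the same `D` for all the families `Y` of rank up to
`exp(c n)` at the same time. For example (`p = 2`, `P = X (X - 1)`, `ℓ = 3`): for the same `D`, for the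
Legendre family `y² = x (x - 1) (x - t)`, all its fibre powers and symmetric powers of rank up to `exp(c n)`, and
all abelian schemes of dimension up to `exp(c n)` over the complement of `0, 1, ∞` (also the constant ones)
with all points of order 2 rational over `k₀(t)`: the quadratic twist by `D` has no new Tate classes over `k'`,
and in particular its Mordell–Weil group over `k'(t)` is finite. The theorems in the hand-ins `EveryFamilyAlmostAllTwists` and `NoSmallSubrepresentations` in this
folder and in `MP_89bcae_ag` treat classes which are fixed by the Galois groups of special fields (over which
some root of `D` is not rational), for more general `V`; here all the finite extensions `κ` are allowed, with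
any action on the roots of `D`.

For a single `V₀` and large `n` such statements follow from the big monodromy theorems of Katz (Twisted
L-functions and monodromy) and Hilbert's irreducibility theorem (Serre, Terasoma); for the curves
`s^q = D(t)` themselves (`V₀` trivial) compare the theorems of Zarhin on endomorphisms and homomorphisms of
superelliptic Jacobians. These methods cannot be used for infinitely many `V₀` at the same time.

Proof. The classes `τ c` span a representation `M` with a finite image (`Q_ORA`, `Q_ORB`, `Q_TRL`), of
dimension at most `[κ : k]`, and at most `deg(P D) d`, because this is a bound for the dimension of the space of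
the cocycles modulo `p` which are not ramified outside of `P D` (`Q_KMD`, `Q_DMF`, `Q_DMQ`: Kummer theory and
devissage). So it is sufficient to show that there are no nonzero homomorphisms from such a representation `M`
of dimension `m` to `H` (`NoArtin`, the theorem `artin_fin` in Pool/Agent/Helper55/RT/Fin4.lean). Outside of a thin
set the Galois group of `D` over `k₀` (enlarged: it contains the roots of `P`, the
roots of unity of order `p` and a root of `-1` of order `p`) is the symmetric group, and the differences of the
roots `θ_i` of `D`, and of the `θ_i` and the roots of `P`, are independent modulo `p`-th powers in `k₀(θ)`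
(`Q_INT`; specialization, `Q_SL`, and `Q_NPW`). Let `W = M / ker`, and `A` the Galois group of `k₀`. The elements of
`Q = Gal(k' / k₀(θ))` with an order prime to `p` on `W` act trivially (`Q_PPR`): the cocycles with values in
`V` can be normalized at the rational place `θ_1`, and the action on the cocycles modulo `p` is unipotent
(`Q_UNP`) by Kummer theory (`Q_KIN`). So the image of `Q` in `GL(W)` is a `p`-group, and by the theorem of
Schur and Zassenhaus there are commuting lifts of disjoint cycles of length `ℓ` (`Q_SZL`). A suitable product of
powers of them, with at most one missing, fixes a vector (`Q_EIG`); as `p`-groups are monomial (`Q_MON`) and the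
elements of order `p^b` of `GL_m(ℚ_p)` satisfy `p^b ≤ 2 p m` (`Q_EXO`), there is a subgroup `K` of `A` which
fixes a nonzero vector of `W`, has `⌊n / ℓ⌋ - 1` orbits of length `ℓ` on the roots, and contains a subgroup
of `Q` of index at most `(2 p m²)^ℓ` (`Q_AGT`). Let `κ` be the fixed field of `K`. For each of these orbits
`O` the factor `D_O` of `D` is irreducible over `κ`; if `D_O` satisfied the condition on independence modulo
`p`-th powers (`IndepP`) relative to the other roots of `P D`, then the fixed class would vanish by the
criterion of the other hand-ins (`Q_BTC`). So for each orbit there is a relation (`Q_VKO`), and these relations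
give `⌊n / ℓ⌋ - 1` independent Kummer characters of `Q` which are trivial on `K ∩ Q` (`Q_CNT`):
`p^(⌊n / ℓ⌋ - 1) ≤ [Q : K ∩ Q] ≤ (2 p m²)^ℓ`, a contradiction.

All the definitions used in the statement are in Pool/Agent/Helper55/RT/Def.lean (`OutsideThin`,
`monicPoly`), Pool/Agent/Helper55/RT/Def4.lean (`NoPotential`, `FixedOver`), Pool/Agent/Helper55/RL/Def.lean
and, for `Sep`, `Comp` and `IsTower`, in Pool/Graph/R_seed8/TH115/GD/Defs.lean.
-/

namespace Pool.Agent.Results.MP_938ce2_ag.NoPotentialTateClasses

open Polynomial Pool.Agent.TH115.GD Pool.Agent.Helper55.RL Pool.Agent.Helper55.RT

/-- Outside of a thin subset of `k ^ n` (`OutsideThin`), for `D = X ^ n + a_{n-1} X ^ (n-1) + ⋯ + a₀`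
(`monicPoly a`): there are no new Tate classes over all finite extensions `κ` of `k` for all `V` as above, if
the rank of `V` or the degree of `κ` is at most exponential in `n` (`NoPotential`; the field
`IntermediateField.adjoin K _` is `k₀(t)`). -/
theorem result (p ℓ : ℕ) [Fact p.Prime] [Fact ℓ.Prime] (hpl : p ≠ ℓ) (hl : 3 ≤ ℓ)
    {k k' K F : Type} [Field k] [CharZero k] [Field k'] [Algebra k k'] [Field K] [Algebra k[X] K]
    [Field F] [Algebra k'[X] F] [IsFractionRing k'[X] F] [Algebra K F] (hT : IsTower k k' K F)
    (k₀ : IntermediateField k k') [FiniteDimensional k k₀] {P : k[X]} (hP : P ≠ 0) (n : ℕ) :
    OutsideThin fun a : Fin n → k => NoPotential p k' K F (IntermediateField.adjoin K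
      ((fun e : k' => algebraMap F (Sep F) (algebraMap k'[X] F (C e))) '' (k₀ : Set k'))) ℓ P
        (monicPoly a) :=
  pot_fin p ℓ hpl hl hT k₀ hP n

end Pool.Agent.Results.MP_938ce2_ag.NoPotentialTateClasses
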