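import Mathlib
import Pool.Graph.R_seed8.TH115.GD.Defs
import Pool.Agent.Helper55.RT.Fin3

/-!
# Outside of a thin set of the polynomials `D`: the cohomology of the twists by `D` of ANY p-adic local
# system of the projective line has no small subrepresentations at all (Tate classes or not)

Let `k` be a number field, or any field of characteristic zero, `k'` an algebraic closure, `K = k(t)`,
`F = k'(t)` and `p` any prime. Let `P ≠ 0` be any polynomial over `k`, `L / K` any finite extension and
`n ≥ 5`.

Theorem. For all the monic polynomials `D` of degree `n` over `k`, with the exception of a thin set (in the
sense of Serre), the following is true (`NoSubGal`). Let `κ` be ANY finite Galois extension of `k` which does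
not contain all the roots of `D` (for example `κ = k`), `k₂` any subfield of `κ` and `K₂ = k₂(t)`. Let
`V = ℚ_p ^ d` be ANY continuous representation of the Galois group of `K₂`, of any dimension `d`, with the
invariant lattice `ℤ_p ^ d`, such that

* the image modulo `p` of the Galois group of `κ(t) L` is a `p`-group;
* `V` is not ramified outside of the roots of `P D` and infinity (over `k'`);
* the inertia groups at the roots of `D` have no nonzero invariants in `V`.

Let `M = ℚ_p ^ m` be ANY continuous representation of the Galois group of `k₂`, with the invariant lattice
`ℤ_p ^ m`, such that `n!` does not divide `2 |GL_m(𝔽_p)|`. Then every homomorphism of Galois representations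
from `M` to the space `H` of the classes in `H¹(F, V)` which are locally trivial at the roots of `D` and at
the places which are not roots of `P D` or infinite is zero. The exceptional thin set depends only on `p`,
`P`, `L` and `n`, not on `V`, `M`, on the dimensions, on `κ` or on `k₂`.

The local Galois groups of `F` are procyclic, hence `V^I = 0` implies that all the classes are trivial at the
roots of `D`, and `H = H¹(U, V)` where `U` is the complement of the roots of `P D` and infinity in the
projective line over `k'`. As the Galois group is compact, all continuous representations have invariant
lattices. So the theorem says: each nonzero subrepresentation of `H¹(U, V)`, over all the fields `k₂`, has a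
dimension `m` such that `n!` divides `2 |GL_m(𝔽_p)|`. This gives `m ≥ c n` with a constant `c > 0` which
depends only on `p`, for large `n`: for a prime `q ≠ p` the exponent of `q` in `|GL_m(𝔽_p)|` is at most a
multiple of `m`. For `p = 2` and `q = 3` it gives `3 ⌊m / 2⌋ ≥ n + 1 - s`, where `s` is the sum of the ternary
digits of `n`, so `m` is at least about `2 n / 3`. For comparison, the dimension of `H¹(U, V)` is
`(n + r - 1) d`, if `V` has no invariants and `P` has `r` roots; for the quadratic character of `D` it is
`n - 1`. Hence the number of irreducible subrepresentations in a direct sum in `H¹(U, V)` is bounded in terms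
of `d`, `r` and `p`.

Relation to the Tate conjecture. Let `V = V₀ ⊗ W`, where `V₀ = H^{2j-1}(Y_t, ℚ_p(j))` for any family
`Y → ℙ¹` over `k` with good reduction outside of `P` and infinity (`L` contains the field given by `V₀` modulo
`p`), and `W` is the new part of the permutation representation of the covering `C_D : s^q = D(t)`,
`q = p ^ m'`; then the part `H¹(ℙ¹, j_* V)` of `H^{2j}(Y_D, ℚ_p(j))`, `Y_D` a smooth model of the pull-back
`Y ×_{ℙ¹} C_D`, and also the corresponding part of the cohomology of the open variety over `U`, is contained in
`H¹(U, V)`. Take `k₂ = κ = k`.

* ALL Tate classes (the classes fixed by an open subgroup of the Galois group): they form a subrepresentation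
  `T` of `H¹(U, V)`. So either there are no new Tate classes, over any finite extension of `k`, or the space
  of the new Tate classes has the dimension `m ≥ c n` with `n!` dividing `2 |GL_m(𝔽_p)|`. For example, for
  every abelian variety `A` over `k(t)` the rank of `A_D(k'(t))` is zero or at least about `2 n / 3` (`p = 2`).
* Products: let `Z` be ANY smooth projective variety over `k` with the Betti number `b_i(Z) = m`, `n!` not
  dividing `2 |GL_m(𝔽_p)|`. Then there are no Tate classes over `k` in `H^i(Z) ⊗ H¹(U, V)` (all Tate twists):
  the Tate conjecture is true for this part of the cohomology of `Y_D × Z`. In other words, there are no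
  nonzero homomorphisms between the new part of `Y_D` and any motive of small rank; the same `D` can be used
  for all `Z`, for all `V₀` (all the powers of the fibres, all abelian schemes of all dimensions with good
  reduction outside of `P` and infinity and points of order `p` in `L`) and for all `q = p ^ m'`.

For a single `V₀` and large `n` such statements follow from the big monodromy theorems of Katz (Twisted
L-functions and monodromy) and Hilbert's irreducibility theorem (Serre, Terasoma); for the curves
`s^q = D(t)` themselves (`V₀` trivial) compare the theorems of Zarhin on endomorphisms and homomorphisms of
superelliptic Jacobians. These methods cannot be used for infinitely many `V₀` at the same time.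

Proof. A homomorphism from `M` to `H¹(U, V)` is a class in `H¹(U, V ⊗ M^*)` which is fixed by the Galois group
of `k₂` (`Q_TNS`). The representation `V ⊗ M^*` is as above if `κ` is replaced by a field which contains `κ`
and the field `κ_M` given by `M` modulo `p` (`Q_KMM`), and by the theorem on fixed classes
(`VanishGal`, Pool/Agent/Results/MP_89bcae_ag/ThinExceptionalTwists.lean) the class is zero if there is a
finite Galois extension of `k` which contains `κ` and `κ_M` and does not contain all the roots of `D`. If the
Galois group of `D` over `κ κ_M` contains the alternating group `A_n`, this is true for the Galois closure of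
`κ κ_M` over `k`, as `A_n` is perfect (`Q_ALC`). Otherwise, as this group is normal in the Galois group of `D`
over `κ`, which contains `A_n`, and as `A_n` is simple, it is trivial; then `n!` divides `2 [κ κ_M : κ]`
(`Q_DIC`), which divides `2 |GL_m(𝔽_p)|` (`Q_KM2`).

All the definitions used in the statement are in Pool/Agent/Helper55/RT/Def.lean,
Pool/Agent/Helper55/RT/Def2.lean, Pool/Agent/Helper55/RL/Def.lean and, for `Sep`, `Comp` and `IsTower`, in
Pool/Graph/R_seed8/TH115/GD/Defs.lean.
-/

namespace Pool.Agent.Results.MP_938ce2_ag.NoSmallSubrepresentations

open Polynomial Pool.Agent.TH115.GD Pool.Agent.Helper55.RL Pool.Agent.Helper55.RT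

/-- Outside of a thin subset of `k ^ n` (`OutsideThin`), for `D = X ^ n + a_{n-1} X ^ (n-1) + ⋯ + a₀`
(`monicPoly a`): for all the finite Galois extensions `κ` of `k` which do not contain all the roots of `D`, all
subfields `k₂` of `κ`, all the representations `V` of the Galois group of `k₂(t)` as above and all the
representations `M` of the Galois group of `k₂` of dimension `m`, with `n!` not dividing `2 |GL_m(𝔽_p)|`, there
are no nonzero homomorphisms from `M` to `H¹(U, V)` (`NoSubGal`). -/
theorem result (p : ℕ) [Fact p.Prime] {k k' K F : Type} [Field k] [CharZero k] [Field k']
    [Algebra k k'] [Field K] [Algebra k[X] K] [Field F] [Algebra k'[X] F] [IsFractionRing k'[X] F]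
    [Algebra K F] (hT : IsTower k k' K F) (L : IntermediateField K (Sep F))
    [FiniteDimensional K L] {P : k[X]} (hP : P ≠ 0) {n : ℕ} (hn : 5 ≤ n) :
    OutsideThin fun a : Fin n → k => NoSubGal p k' K F L P (monicPoly a) :=
  subgal_fin p hT L hP hn

end Pool.Agent.Results.MP_938ce2_ag.NoSmallSubrepresentations
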